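import Pool.Agent.H89.KD.Stmts
import Pool.Agent.H62.KG.ZSM
import Pool.Agent.H85.KG.PWB

/-! # Project KD, module NDR: the relation between the derivatives of order `m` and `m - 1` -/

set_option autoImplicit false
set_option linter.unusedSectionVars false

open MeasureTheory Set Filter Topology
open scoped ContDiff

namespace Pool.Agent.H89.KD

open Pool.Agent.H84 Pool.Agent.H84.Sym Pool.Agent.H84.Sym.P2x Pool.Agent.H19.KL
open Pool.Agent.H73.KG Pool.Agent.H20.KH Pool.Agent.H85.KG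

section ndr1

variable {E : Type} [NormedAddCommGroup E] [InnerProductSpace ℝ E]

theorem ndr_smooth_D {F : E → ℝ} (hF : ContDiff ℝ ∞ F) (v : E) : ContDiff ℝ ∞ (D v F) := by
  unfold D
  exact (hF.fderiv_right (m := ∞) (by simp)).clm_apply contDiff_const

theorem ndr_smooth_DL {F : E → ℝ} (hF : ContDiff ℝ ∞ F) (l : List E) :
    ContDiff ℝ ∞ (DL l F) := by
  induction l with
  | nil => exact hF
  | cons v l ih => exact ndr_smooth_D ih v

theorem ndr_DL_sum {ι : Type} (s : Finset ι) (F : ι → E → ℝ) (hF : ∀ i, ContDiff ℝ ∞ (F i))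
    (l : List E) : DL l (fun θ => ∑ i ∈ s, F i θ) = fun θ => ∑ i ∈ s, DL l (F i) θ := by
  induction l with
  | nil => rfl
  | cons v l ih =>
    funext θ
    rw [DL_cons, ih]
    unfold D
    rw [fderiv_fun_sum fun i _ =>
      ((ndr_smooth_DL (hF i) l).differentiable (by simp)).differentiableAt]
    rw [sum_apply]
    rfl

theorem ndr_DL_smul (c : ℝ) (F : E → ℝ) (hF : ContDiff ℝ ∞ F)
    (l : List E) : DL l (fun θ => c * F θ) = fun θ => c * DL l F θ := by
  induction l with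
  | nil => rfl
  | cons v l ih =>
    funext θ
    rw [DL_cons, ih]
    unfold D
    rw [fderiv_const_mul ((ndr_smooth_DL hF l).differentiable (by simp)).differentiableAt]
    rfl

end ndr1

section ndr2

variable {E : Type} [NormedAddCommGroup E] [InnerProductSpace ℝ E]
    [FiniteDimensional ℝ E] [MeasurableSpace E] [BorelSpace E]

theorem ndr_pm_smooth {U : E → ℝ} {t C : ℝ} (hU : Pot U t C) {F : E → ℝ} (hF : GC F) :
    ContDiff ℝ ∞ (fun θ => pm U 0 θ F) := by
  have key : ∀ G : E → ℝ, GC G → ContDiff ℝ ∞ (fun θ => ZF U 0 θ G) := by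
    intro G hG
    have h := (zsm_thm E U t C hU G hG).1
    have h2 : ContDiff ℝ ∞ (fun θ : E => ((0:ℝ), θ)) := contDiff_const.prodMk contDiff_id
    have h3 := h.comp (s := univ) h2.contDiffOn
      (fun θ _ => ⟨by simpa using hU.pos, mem_univ _⟩)
    exact contDiffOn_univ.1 h3
  unfold pm
  exact (key F hF).div (key _ (GC.const 1)) fun θ => (ZF_one_pos hU le_rfl θ).ne'

theorem ndr_pm_int {U : E → ℝ} {t : ℝ} (hU : PP U t) (θ : E) (F : E → ℝ) :
    pm U 0 θ F = ∫ x, F x ∂(mu (pw U 0 θ)) := ((pwb_thm E U t hU).2.1 0 θ le_rfl F).symm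

theorem ndr_tst_gc {u : E → ℝ} (hu : Tst u) : GC u := by
  obtain ⟨C, hC⟩ := hu.2.exists_bound_of_continuous hu.1.continuous
  exact ⟨hu.1.continuous, Gr.of_bdd (A := C) fun x => by simpa [Real.norm_eq_abs] using hC x⟩

theorem ndr_tst_D {u : E → ℝ} (hu : Tst u) (v : E) : Tst (D v u) := by
  refine ⟨ndr_smooth_D hu.1 v, ?_⟩
  unfold D
  exact hu.2.fderiv_apply (𝕜 := ℝ) v

theorem ndr_D_basis {ι : Type} [Fintype ι] (b : OrthonormalBasis ι ℝ E) (u : E → ℝ) (v : E) :
    D v u = fun x => ∑ i, inner ℝ (b i) v * D (b i) u x := by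
  funext x
  unfold D
  conv_lhs => rw [← b.sum_repr' v]
  rw [map_sum]
  refine Finset.sum_congr rfl fun i _ => ?_
  rw [map_smul, smul_eq_mul]

end ndr2

theorem ndr_thm (E : Type) [NormedAddCommGroup E] [InnerProductSpace ℝ E]
    [FiniteDimensional ℝ E] [MeasurableSpace E] [BorelSpace E]
    (hIBT : IBTStmt E) (hLEI : LEIStmt E) : NDRStmt E := by
  intro U t hU ι _ b u hu l
  obtain ⟨C, hC⟩ := hU.1
  have hG : ∀ v : E, ContDiff ℝ ∞ (fun θ => pm U 0 θ (D v u)) := fun v =>
    ndr_pm_smooth hC (ndr_tst_gc (ndr_tst_D hu v))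
  have h0 : (fun θ => pm U 0 θ (fun x => -LO b U u x)) =
      fun θ => ∑ i, inner ℝ (b i) θ * pm U 0 θ (D (b i) u) := by
    funext θ
    exact hIBT U t hU ι b u hu θ
  have hsm : ∀ i, ContDiff ℝ ∞ (fun θ : E => inner ℝ (b i) θ * pm U 0 θ (D (b i) u)) :=
    fun i => (contDiff_const.inner ℝ contDiff_id).mul (hG (b i))
  unfold ND
  rw [h0, ndr_DL_sum _ _ hsm]
  have h1 : ∀ i, DL l (fun θ => inner ℝ (b i) θ * pm U 0 θ (D (b i) u)) 0 =
      ∑ k : Fin l.length, inner ℝ (b i) (l.get k) *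
        DL (l.eraseIdx k) (fun θ => pm U 0 θ (D (b i) u)) 0 := by
    intro i
    rw [hLEI (b i) _ (hG (b i)) l 0, inner_zero_right, zero_mul, zero_add]
  simp only [h1]
  rw [Finset.sum_comm]
  refine Finset.sum_congr rfl fun k _ => ?_
  have h2 : (fun θ => pm U 0 θ (D (l.get k) u)) =
      fun θ => ∑ i, inner ℝ (b i) (l.get k) * pm U 0 θ (D (b i) u) := by
    funext θ
    rw [ndr_pm_int hU, ndr_D_basis b u (l.get k)]
    have hint : ∀ i, Integrable (fun x => inner ℝ (b i) (l.get k) * D (b i) u x)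
        (mu (pw U 0 θ)) := by
      intro i
      obtain ⟨C', hC'⟩ := ((pwb_thm E U t hU).1 0 θ le_rfl).1
      exact ((ndr_tst_gc (ndr_tst_D hu (b i))).integrable hC').const_mul _
    rw [integral_finsetSum _ fun i _ => hint i]
    refine Finset.sum_congr rfl fun i _ => ?_
    rw [integral_const_mul, ndr_pm_int hU]
  rw [h2, ndr_DL_sum _ _ fun i => contDiff_const.mul (hG (b i))]
  refine Finset.sum_congr rfl fun i _ => ?_
  rw [ndr_DL_smul _ _ (hG (b i))]

end Pool.Agent.H89.KD
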